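import Pool.Agent.Helper51.Flex.Goals

/-!
# FX-FUN: the key function of flex type (MP_f0185d_an)
-/

set_option autoImplicit false

namespace Pool.Agent.Helper51.Flex

open Pool.Agent.Helper24.Cubic

/-- derivative of a composite along a curve -/
lemma fx_comp {h : ℂ × ℂ → ℂ} (hh : Differentiable ℂ h) {x y : ℂ → ℂ} {x' y' t : ℂ}
    (hx : HasDerivAt x x' t) (hy : HasDerivAt y y' t) :
    HasDerivAt (fun s => h (x s, y s)) (fderiv ℂ h (x t, y t) (x', y')) t :=
  (hh (x t, y t)).hasFDerivAt.comp_hasDerivAt t (hx.prodMk hy)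

lemma fx_dslope {C : ℂ → ℂ} (hC : Differentiable ℂ C) : Differentiable ℂ (dslope C 0) := by
  rw [← differentiableOn_univ, Complex.differentiableOn_dslope Filter.univ_mem]
  exact hC.differentiableOn

lemma fx_dslope_mul {C : ℂ → ℂ} (hC0 : C 0 = 1) (x : ℂ) : x * dslope C 0 x = C x - 1 := by
  have := sub_smul_dslope C 0 x
  rw [sub_zero, hC0, smul_eq_mul] at this
  exact this

/-- the function `k` of step 1 -/
lemma fx_step1 (hE : EU) {C : ℂ → ℂ} (hCd : Differentiable ℂ C) (hC0 : C 0 = 1) (c : ℂ)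
    (hc : Complex.exp (-c) = 1 / 3) :
    ∃ k : ℂ × ℂ → ℂ, Differentiable ℂ k ∧ k (0, 0) = 0 ∧ ∀ x y : ℂ,
      2 * (1 - x) * fderiv ℂ k (x, y) (3 * x, y) = 3 - 2 * (1 - x)
        - 3 * Complex.exp (-c * (1 - x)) * C ((1 - x) * y) + 6 * c * (1 - x) * x := by
  have hE1 := E1_diff
  have hC1 := fx_dslope hCd
  obtain ⟨k, hk, hk0, hkf⟩ := hE (fun p => (-2 + 3 * c * E1 (-c * (1 - p.1)) * C ((1 - p.1) * p.2)
    - 3 * p.2 * dslope C 0 ((1 - p.1) * p.2) + 6 * c * p.1) / 2) (by fun_prop) (by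
      have h1 := E1_mul (-c)
      rw [hc] at h1
      simp only [sub_zero, mul_one, mul_zero, zero_mul, add_zero, hC0]
      have h2 : 3 * c * E1 (-c) = 2 := by linear_combination (-3) * h1
      rw [h2]; norm_num)
  refine ⟨k, hk, hk0, fun x y => ?_⟩
  rw [hkf x y]
  have h1 := E1_mul (-c * (1 - x))
  have h2 := fx_dslope_mul hC0 ((1 - x) * y)
  simp only
  linear_combination (-3) * C ((1 - x) * y) * h1 - 3 * h2

theorem flexFun_of (hE : EU) (hC : CS) : FlexFun := by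
  obtain ⟨C, S, hCd, hSd, hC0, hS0, hCc, hSs⟩ := hC
  set c : ℂ := Complex.log 3 with hcdef
  have hc : Complex.exp (-c) = 1 / 3 := by
    rw [Complex.exp_neg, hcdef, Complex.exp_log (by norm_num)]; norm_num
  obtain ⟨k, hk, hk0, hkf⟩ := fx_step1 hE hCd hC0 c hc
  obtain ⟨A, hA, -, hAf⟩ := hE (fun p => Complex.exp (k p) * S ((1 - p.1) * p.2) / 2 - 1)
    (by fun_prop) (by
      simp only [hk0, Complex.exp_zero, mul_zero, hS0]; norm_num)
  refine ⟨fun p => -(p.1 / 3) * Complex.exp (k (1 - p.1 ^ 2 * p.2, p.2)) *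
      Complex.exp (c * (p.1 ^ 2 * p.2)) + A (1 - p.1 ^ 2 * p.2, p.2), by fun_prop, fun w l => ?_⟩
  set v1 : ℂ := 2 * w ^ 2 * l - 3 with hv1
  set v2 : ℂ := 2 * w * l ^ 2 with hv2
  -- curves
  have hw : HasDerivAt (fun t : ℂ => w + t * v1) v1 0 := by
    simpa using ((hasDerivAt_id (0:ℂ)).mul_const v1).const_add w
  have hl : HasDerivAt (fun t : ℂ => l + t * v2) v2 0 := by
    simpa using ((hasDerivAt_id (0:ℂ)).mul_const v2).const_add l
  set W : ℂ → ℂ := fun t => w + t * v1 with hW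
  set Lc : ℂ → ℂ := fun t => l + t * v2 with hLc
  have hW0 : W 0 = w := by simp [hW]
  have hL0 : Lc 0 = l := by simp [hLc]
  have hxi : HasDerivAt (fun t => W t ^ 2 * Lc t) (-(6 * w * l * (1 - w ^ 2 * l))) 0 := by
    have h1 := (hw.pow 2).mul hl
    have h2 : (2 : ℕ) * W 0 ^ (2 - 1) * v1 * Lc 0 + (W ^ 2) 0 * v2 =
        -(6 * w * l * (1 - w ^ 2 * l)) := by
      simp only [Pi.pow_apply, hW0, hL0, hv1, hv2]
      push_cast
      ring
    rw [h2] at h1
    exact h1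
  have heta : HasDerivAt (fun t => 1 - W t ^ 2 * Lc t) (6 * w * l * (1 - w ^ 2 * l)) 0 := by
    have h1 := hxi.const_sub 1
    rwa [neg_neg] at h1
  have hvec : ((6 * w * l * (1 - w ^ 2 * l), v2) : ℂ × ℂ) =
      (2 * w * l) • ((3 * (1 - w ^ 2 * l), l) : ℂ × ℂ) := by
    rw [Prod.smul_mk, smul_eq_mul, smul_eq_mul, hv2]
    congr 1 <;> ring
  have hcomp : ∀ h : ℂ × ℂ → ℂ, Differentiable ℂ h →
      HasDerivAt (fun t => h (1 - W t ^ 2 * Lc t, Lc t))
        (2 * w * l * fderiv ℂ h (1 - w ^ 2 * l, l) (3 * (1 - w ^ 2 * l), l)) 0 := by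
    intro h hh
    have h1 := fx_comp hh heta hl
    simp only [hW0, hL0] at h1
    rw [hvec, map_smul, smul_eq_mul] at h1
    exact h1
  have hkd := hcomp k hk
  have hAd := hcomp A hA
  have hF := (((hw.div_const 3).neg.mul hkd.cexp).mul ((hxi.const_mul c).cexp)).add hAd
  -- the directional derivative
  have hdir : ∀ a : ℂ × ℂ → ℂ, Differentiable ℂ a → ∀ d : ℂ,
      HasDerivAt (fun t => a (W t, Lc t)) d 0 → fderiv ℂ a (w, l) (v1, v2) = d := by
    intro a ha d hd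
    have h1 := fx_comp ha hw hl
    simp only [hW0, hL0] at h1
    exact h1.unique hd
  rw [hdir _ (by fun_prop) _ hF]
  rw [hAf (1 - w ^ 2 * l) l]
  have hkk := hkf (1 - w ^ 2 * l) l
  simp only [Pi.mul_apply, Pi.neg_apply, hW0, hL0, sub_sub_cancel] at hkk ⊢
  have hc1 := hCc (w * l)
  have hs1 := hSs (w * l)
  have e1 : w ^ 2 * l * l = (w * l) ^ 2 := by ring
  rw [e1] at hkk ⊢
  rw [hc1] at hkk
  set K := Complex.exp (k (1 - w ^ 2 * l, l)) with hK
  set D := fderiv ℂ k (1 - w ^ 2 * l, l) (3 * (1 - w ^ 2 * l), l) with hD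
  have hcc : Complex.exp (c * (w ^ 2 * l)) * Complex.exp (-c * (w ^ 2 * l)) = 1 := by
    rw [← Complex.exp_add]; simp
  have key : 2 * w * l + (((-(v1 / 3)) * K + -(w / 3) * (K * (2 * w * l * D))) *
      Complex.exp (c * (w ^ 2 * l)) + -(w / 3) * K * (Complex.exp (c * (w ^ 2 * l)) *
      (c * -(6 * w * l * (1 - w ^ 2 * l)))) + 2 * w * l * (K * S ((w * l) ^ 2) / 2 - 1)) =
      K * Complex.exp (2 * (w * l)) := by
    rw [← Complex.cosh_add_sinh (2 * (w * l)), ← hs1, hv1]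
    linear_combination (-(K / 3) * Complex.exp (c * (w ^ 2 * l))) * hkk +
      K * Complex.cosh (2 * (w * l)) * hcc
  intro h0
  have h1 : K * Complex.exp (2 * (w * l)) = 0 := by
    rw [← key]
    linear_combination h0
  exact (mul_ne_zero (Complex.exp_ne_zero _) (Complex.exp_ne_zero _)) h1

end Pool.Agent.Helper51.Flex

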